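import Pool.Agent.Q209.CO.Neg
import Pool.Agent.Q209.CO.Models

/-!
# A convexly orderable theory which is not a reduct of a VC-minimal theory

The theory is the complete theory of infinitely many circles with the rotations by `1 / k` for all
`k`, the relation of being in the same circle and the relation that `y` is in the open half circle
which starts at `x`.

Idea. Suppose the theory is a reduct of a theory with a VC-minimal family `Φ`. Each circle is a
Boolean combination of at most `N` instances of `Φ`. As `s` sets of a family of independence
dimension one have at most `s + 1` atoms, a count shows that finitely many definable sets cut almost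
every circle into at most `N` pieces. Rotations permute these pieces, hence the rotation by `1 / p`,
an `N!`-th power of another rotation, preserves them. So the family of the traces of the instances
of `Φ` on an orbit `ℤ / p` of this rotation on a suitable circle is invariant under translation; for
a prime `p` a translation invariant family of independence dimension one on `ℤ / p` consists of sets
which are constant off one point, and the half circle, whose trace has `(p - 1) / 2` points, is not
a Boolean combination of boundedly many such sets.
-/

set_option autoImplicit false

universe u v w w'

namespace Pool.Agent.Results.MP_9db22c_lc.NotReductOfVCMinimal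

open FirstOrder FirstOrder.Language Pool.Agent.Q209.CO

/-- There is a complete theory `T` in a countable language such that all models of `T` are convexly
orderable, but `T` is not a reduct of any VC-minimal theory `T'` in any language. -/
theorem result : ∃ (L : FirstOrder.Language.{0, 0}) (T : L.Theory),
    Countable (Σ n, L.Functions n) ∧ Countable (Σ n, L.Relations n) ∧ T.IsComplete ∧
    (∀ (M : Type w') [L.Structure M] [Nonempty M] [M ⊨ T], ConvexlyOrderable L M) ∧
    ∀ (L' : FirstOrder.Language.{u, v}) (T' : L'.Theory), VCMinimal.{u, v, w} T' →
      ¬ IsReduct.{0, 0, w, u, v} T T' := by
  refine ⟨rotLang, rotTheory, ?_, ?_, completeTheory.isComplete rotLang ℝ,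
    fun M _ _ _ => convexlyOrderable_model M, fun L' T' h => not_isReduct h⟩
  · let f : (Σ n, RotFun n) → ℕ := fun p => match p with
      | ⟨_, RotFun.rot k⟩ => k
    have hf : Function.Injective f := by
      rintro ⟨n, ⟨k⟩⟩ ⟨m, ⟨l⟩⟩ h
      have h' : k = l := h
      rw [h']
    exact hf.countable
  · let f : (Σ n, RotRel n) → Bool := fun p => match p with
      | ⟨_, RotRel.same⟩ => true
      | ⟨_, RotRel.arc⟩ => false
    have hf : Function.Injective f := by
      rintro ⟨n, h1⟩ ⟨m, h2⟩ h
      cases h1 <;> cases h2 <;> first | rfl | exact absurd h (by simp [f])
    exact hf.countable

end Pool.Agent.Results.MP_9db22c_lc.NotReductOfVCMinimal
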